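import Pool.Agent.W838.DC.Stm3
import Pool.Agent.W838.DC.Basic

/-! Project DC, parts DM and CHAIN. -/

set_option autoImplicit false

namespace Pool.Agent.W935.DC

open Pool.Agent.W838.DC Sys

variable {V X : Type*} [AddCommGroup V] (σ : Sys V X)

/-- different positive roots give different neighbours -/
theorem r_inj {a c : V} (ha : a ∈ σ.Φ) (hc : c ∈ σ.Φ) (pa : 0 < σ.ht a) (pc : 0 < σ.ht c) (y : X)
    (h : σ.r a y = σ.r c y) : a = c := by
  have e1 : σ.lab (σ.r a y) a = σ.lab (σ.r c y) a := by rw [h]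
  rw [σ.lab_r a ha, σ.lab_r c hc, σ.ip_self a ha] at e1
  set k := σ.ip a c with hk
  have e2 : σ.lab y ((2 : ℤ) • a - k • c) = 0 := by
    have : (2 : ℤ) • a - k • c = (a - k • c) - (a - (2 : ℤ) • a) := by abel
    rw [this, map_sub, e1, sub_self]
  have e3 : σ.ip ((2 : ℤ) • a - k • c) ((2 : ℤ) • a - k • c) = 0 := by
    rw [← σ.lab_ip y, e2, σ.ip_zero]
  have e4 : σ.ip c a = k := by rw [σ.ip_symm]
  simp only [σ.ip_sub, σ.ip_sub_right, σ.ip_zsmul, σ.ip_zsmul_right, σ.ip_self a ha,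
    σ.ip_self c hc, e4, ← hk] at e3
  have e5 : k * k = 4 := by linarith
  have e6 : (k - 2) * (k + 2) = 0 := by linarith
  rcases mul_eq_zero.1 e6 with h' | h'
  · exact σ.ip_eq_two ha hc (by omega)
  · have := σ.ip_eq_neg_two ha hc (by omega)
    rw [this, map_neg] at pa
    omega

/-- the second middle element from a second way -/
theorem mid (h : S_CNT σ) {y t : X} {a c₁ c₂ : V} (ha : σ.R y a) (h1 : σ.R y c₁) (hne : c₁ ≠ a)
    (h2 : σ.R (σ.r c₁ y) c₂) (ht : t = σ.r c₂ (σ.r c₁ y)) (hP : σ.P t)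
    (hmu : σ.mu t + 2 = σ.mu y) : ∃ z', z' ≠ σ.r a y ∧ Cv σ y z' ∧ Cv σ z' t := by
  have m1 := (h y c₁ h1).1
  have m2 := (h (σ.r c₁ y) c₂ h2).1
  rw [← ht] at m2
  refine ⟨σ.r c₁ y, ?_, ⟨c₁, ⟨h1, ?_⟩, rfl, by omega⟩, ⟨c₂, ⟨h2, ?_⟩, ht, by omega⟩⟩
  · intro he
    exact hne (r_inj σ h1.1 ha.1 h1.2.1 ha.2.1 y he)
  · exact σ.P_of_R h2 (by rw [← ht]; exact hP)
  · rw [← ht]; exact hP

theorem dm (h : S_CNT σ) : S_DM σ := by
  rintro y z t ⟨a, ⟨ha, hPz⟩, rfl, hm1⟩ ⟨b, ⟨hb, hPt⟩, rfl, hm2⟩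
  have hmu : σ.mu (σ.r b (σ.r a y)) + 2 = σ.mu y := by omega
  have hab : a ≠ b := by
    rintro rfl
    have h1 := hb.2.2
    rw [σ.lab_r_self ha.1, map_neg] at h1
    have h2 := ha.2.2
    omega
  have hay := ha.2.2
  have hbz := hb.2.2
  rcases σ.ip_pos ha.1 hb.1 ha.2.1 hb.2.1 hab with hip | hip | hip
  · -- ip a b = -1
    have hipba : σ.ip b a = -1 := by rw [σ.ip_symm]; exact hip
    rw [σ.lab_r_neg ha.1 y hip, map_add] at hbz
    have hab' := σ.add_mem ha.1 hb.1 hip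
    have hpab : 0 < σ.ht (a + b) := by
      rw [map_add]; have := ha.2.1; have := hb.2.1; omega
    rcases σ.R_or_N y hb.1 hb.2.1 with hRb | hNb
    · have hipb : σ.ip b (a + b) = 1 := by
        rw [σ.ip_add_right, hipba, σ.ip_self b hb.1]; norm_num
      refine mid σ h (c₁ := b) (c₂ := a + b) ha hRb (Ne.symm hab) ⟨hab', hpab, ?_⟩ ?_ hPt hmu
      · rw [σ.lab_r_pos hb.1 y hipb, ← map_sub, show a + b - b = a by abel]
        exact hay
      · rw [σ.r_conj_neg hb.1 ha.1 hipba, add_comm b a]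
    · have hipa : σ.ip a (a + b) = 1 := by
        rw [σ.ip_add_right, hip, σ.ip_self a ha.1]; norm_num
      have hipa' : σ.ip (a + b) a = 1 := by rw [σ.ip_symm]; exact hipa
      refine mid σ h (c₁ := a + b) (c₂ := a) ha ⟨hab', hpab, ?_⟩ ?_ ⟨ha.1, ha.2.1, ?_⟩ ?_ hPt hmu
      · rw [map_add, map_add]; exact hbz
      · intro he
        rw [he, σ.ip_self a ha.1] at hipa
        omega
      · rw [σ.lab_r_pos hab' y hipa', map_add, map_sub, map_add]
        have := hNb.2.2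
        omega
      · rw [σ.r_conj_pos ha.1 hab' hipa, show a + b - a = b by abel]
  · -- ip a b = 0
    have hipba : σ.ip b a = 0 := by rw [σ.ip_symm]; exact hip
    rw [σ.lab_r_zero ha.1 y hip] at hbz
    refine mid σ h (c₁ := b) (c₂ := a) ha ⟨hb.1, hb.2.1, hbz⟩ (Ne.symm hab) ⟨ha.1, ha.2.1, ?_⟩ ?_
      hPt hmu
    · rw [σ.lab_r_zero hb.1 y hipba]
      exact hay
    · exact σ.r_comm hb.1 ha.1 hipba y
  · -- ip a b = 1
    have hipba : σ.ip b a = 1 := by rw [σ.ip_symm]; exact hip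
    rw [σ.lab_r_pos ha.1 y hip, map_sub] at hbz
    have hg := σ.sub_mem hb.1 ha.1 hipba
    have hg' := σ.sub_mem ha.1 hb.1 hip
    rcases lt_or_gt_of_ne (σ.ht_ne _ hg) with hlt | hgt
    · have hRb : σ.R y b := ⟨hb.1, hb.2.1, by omega⟩
      have hipb : σ.ip b (a - b) = -1 := by
        rw [σ.ip_sub_right, hipba, σ.ip_self b hb.1]; norm_num
      refine mid σ h (c₁ := b) (c₂ := a - b) ha hRb (Ne.symm hab) ⟨hg', ?_, ?_⟩ ?_ hPt hmu
      · rw [map_sub] at hlt ⊢
        omega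
      · rw [σ.lab_r_neg hb.1 y hipb, ← map_add, show b + (a - b) = a by abel]
        exact hay
      · exact σ.r_conj_pos hb.1 ha.1 hipba y
    · have hipg : σ.ip (b - a) a = -1 := by
        rw [σ.ip_sub, hipba, σ.ip_self a ha.1]; norm_num
      have hipg' : σ.ip a (b - a) = -1 := by rw [σ.ip_symm]; exact hipg
      refine mid σ h (c₁ := b - a) (c₂ := a) ha ⟨hg, hgt, ?_⟩ ?_ ⟨ha.1, ha.2.1, ?_⟩ ?_ hPt hmu
      · rw [map_sub, map_sub]; exact hbz
      · intro he
        rw [he, σ.ip_self a ha.1] at hipg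
        omega
      · rw [σ.lab_r_neg hg y hipg, ← map_add, show b - a + a = b by abel]
        omega
      · rw [σ.r_conj_neg ha.1 hg hipg', show a + (b - a) = b by abel]

theorem edge (h : S_CNT σ) : ∀ (d : ℕ) (y : X) (a : V), σ.mu y - σ.mu (σ.r a y) ≤ d →
    σ.Psi y a → Relation.ReflTransGen (Cv σ) y (σ.r a y) := by
  intro d
  induction d with
  | zero =>
    intro y a hd ha
    have := (h y a ha.1).1
    omega
  | succ d ih =>
    intro y a hd ha
    by_cases hI : Indec σ y a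
    · exact Relation.ReflTransGen.single ⟨a, ha, rfl, (h y a ha.1).2.1 hI⟩
    · unfold Indec at hI
      push Not at hI
      obtain ⟨b, c, hb, hc, rfl⟩ := hI
      have hip : σ.ip b c = -1 := by
        have e1 := σ.ip_self _ ha.1.1
        rw [σ.ip_add, σ.ip_add_right, σ.ip_add_right, σ.ip_self b hb.1, σ.ip_self c hc.1,
          σ.ip_symm c b] at e1
        omega
      have hipc : σ.ip c b = -1 := by rw [σ.ip_symm]; exact hip
      have e1 : σ.r (b + c) y = σ.r b (σ.r c (σ.r b y)) := by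
        rw [σ.r_conj_neg hb.1 hc.1 hip, σ.r_r hb.1]
      have R1 : σ.R (σ.r b y) c := ⟨hc.1, hc.2.1, by
        rw [σ.lab_r_neg hb.1 y hip, map_add]
        have := hb.2.2; have := hc.2.2; omega⟩
      have R2 : σ.R (σ.r c (σ.r b y)) b := ⟨hb.1, hb.2.1, by
        rw [σ.lab_r_neg hc.1 _ hipc, σ.lab_r_neg hb.1 y hip, σ.lab_r_self hb.1,
          map_add, map_add, map_neg]
        have := hc.2.2; omega⟩
      have hP3 : σ.P (σ.r b (σ.r c (σ.r b y))) := by rw [← e1]; exact ha.2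
      have hP2 : σ.P (σ.r c (σ.r b y)) := σ.P_of_R R2 hP3
      have hP1 : σ.P (σ.r b y) := σ.P_of_R R1 hP2
      have m1 := (h _ _ hb).1
      have m2 := (h _ _ R1).1
      have m3 := (h _ _ R2).1
      rw [e1] at hd ⊢
      exact ((ih y b (by omega) ⟨hb, hP1⟩).trans (ih _ c (by omega) ⟨R1, hP2⟩)).trans
        (ih _ b (by omega) ⟨R2, hP3⟩)

theorem chain (h : S_CNT σ) : S_CHAIN σ := by
  intro y z hyz
  induction hyz with
  | refl => exact Relation.ReflTransGen.refl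
  | tail _ hstep ih =>
    obtain ⟨a, ha, rfl⟩ := hstep
    exact ih.trans (edge σ h _ _ a le_rfl ha)

end Pool.Agent.W935.DC
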